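import Pool.Agent.Helper92.PV.St

/-! PV MODULE FI5 (project PV, MP_ad0dc2_nt); copy of `Pool.Agent.Helper36.PU.M_FI3`. -/

set_option autoImplicit false

namespace Pool.Agent.Helper8.PV

open Pool.Agent.Helper92.PV Pool.Agent.Helper92.PU Pool.Agent.Helper92.PW

private theorem hgt_pos (k : ℤ) (hk : NC k) (p : Pt) (e : Fm p = k) (b : ℝ) (hb : b < 1)
    (hcon : max |(p.1 : ℝ)| (max |(p.2.1 : ℝ)| |(p.2.2 : ℝ)|) ≤ b) : False := by
  have q1 : |(p.1 : ℝ)| ≤ b := le_trans (le_max_left _ _) hcon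
  have q2 : |(p.2.1 : ℝ)| ≤ b := le_trans (le_trans (le_max_left _ _) (le_max_right _ _)) hcon
  have q3 : |(p.2.2 : ℝ)| ≤ b := le_trans (le_trans (le_max_right _ _) (le_max_right _ _)) hcon
  have z : ∀ m : ℤ, |(m : ℝ)| ≤ b → m = 0 := by
    intro m hm
    by_contra hne
    have : (1 : ℤ) ≤ |m| := Int.one_le_abs hne
    have : (1 : ℝ) ≤ |(m : ℝ)| := by exact_mod_cast this
    linarith
  apply hk 0
  rw [← e]
  unfold Fm
  rw [z _ q1, z _ q2, z _ q3]; norm_num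

private theorem dyad (k : ℤ) (hk : NC k) (C δ Z G : ℝ) (hZ : 1 ≤ Z)
    (hC : 0 < C) (hD : ∀ B X : ℝ, 1 ≤ B → 0 ≤ X →
      ∀ T : Finset Pt, (∀ p ∈ T, Fm p = k ∧
        B / 2 < max |(p.1 : ℝ)| (max |(p.2.1 : ℝ)| |(p.2.2 : ℝ)|) ∧
        max |(p.1 : ℝ)| (max |(p.2.1 : ℝ)| |(p.2.2 : ℝ)|) ≤ B ∧ |(p.2.2 : ℝ)| ≤ X) →
      (T.card : ℝ) ≤ C * (X * B ^ (-(1 / 4) : ℝ) + 1) * B ^ (1 / 10 + δ : ℝ)) :
    ∀ N : ℕ, (∀ i ≤ N, (min Z (2 ^ i) * (2 ^ i : ℝ) ^ (-(1 / 4) : ℝ) + 1) *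
      (2 ^ i : ℝ) ^ (1 / 10 + δ : ℝ) ≤ G) → ∀ T : Finset Pt, (∀ p ∈ T, Fm p = k ∧
        max |(p.1 : ℝ)| (max |(p.2.1 : ℝ)| |(p.2.2 : ℝ)|) ≤ 2 ^ N ∧ |(p.2.2 : ℝ)| ≤ Z) →
      (T.card : ℝ) ≤ ((N : ℝ) + 1) * (C * G) := by
  classical
  intro N
  induction N with
  | zero =>
    intro hG T hT
    have h := hD 1 (min Z 1) le_rfl (le_min (by linarith) zero_le_one) T (by
      intro p hp
      obtain ⟨e, a, b⟩ := hT p hp
      rw [pow_zero] at a
      refine ⟨e, ?_, a, le_min b ?_⟩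
      · by_contra hcon
        push Not at hcon
        exact hgt_pos k hk p e (1 / 2) (by norm_num) hcon
      · exact le_trans (le_trans (le_max_right _ _) (le_max_right _ _)) a)
    have h2 := hG 0 le_rfl
    rw [pow_zero] at h2
    have h3 := mul_le_mul_of_nonneg_left h2 hC.le
    rw [Nat.cast_zero, zero_add, one_mul]
    calc (T.card : ℝ) ≤ C * (min Z 1 * (1 : ℝ) ^ (-(1 / 4) : ℝ) + 1) *
          (1 : ℝ) ^ (1 / 10 + δ : ℝ) := h
      _ = C * ((min Z 1 * (1 : ℝ) ^ (-(1 / 4) : ℝ) + 1) *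
          (1 : ℝ) ^ (1 / 10 + δ : ℝ)) := by ring
      _ ≤ C * G := h3
  | succ N ih =>
    intro hG T hT
    set m : Pt → ℝ := fun p => max |(p.1 : ℝ)| (max |(p.2.1 : ℝ)| |(p.2.2 : ℝ)|) with hm
    have hsplit : (T.filter (fun p => (2 : ℝ) ^ (N + 1) / 2 < m p)).card +
        (T.filter (fun p => ¬ (2 : ℝ) ^ (N + 1) / 2 < m p)).card = T.card :=
      Finset.card_filter_add_card_filter_not _
    have hA : ((T.filter (fun p => (2 : ℝ) ^ (N + 1) / 2 < m p)).card : ℝ) ≤ C * G := by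
      have h := hD (2 ^ (N + 1)) (min Z (2 ^ (N + 1))) (one_le_pow₀ one_le_two)
        (le_min (by linarith) (by positivity)) (T.filter (fun p => (2 : ℝ) ^ (N + 1) / 2 < m p)) (by
          intro p hp
          rw [Finset.mem_filter] at hp
          obtain ⟨e, a, b⟩ := hT p hp.1
          exact ⟨e, hp.2, a, le_min b (le_trans (le_trans (le_max_right _ _) (le_max_right _ _)) a)⟩)
      refine h.trans ?_
      rw [mul_assoc]
      exact mul_le_mul_of_nonneg_left (hG (N + 1) le_rfl) hC.le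
    have hB : ((T.filter (fun p => ¬ (2 : ℝ) ^ (N + 1) / 2 < m p)).card : ℝ) ≤
        ((N : ℝ) + 1) * (C * G) := by
      apply ih (fun i hi => hG i (hi.trans (Nat.le_succ N)))
      intro p hp
      rw [Finset.mem_filter] at hp
      obtain ⟨e, a, b⟩ := hT p hp.1
      refine ⟨e, ?_, b⟩
      have h4 := not_lt.mp hp.2
      have h5 : (2 : ℝ) ^ (N + 1) / 2 = 2 ^ N := by rw [pow_succ]; ring
      rw [h5] at h4
      exact h4
    have h6 : (T.card : ℝ) = ((T.filter (fun p => (2 : ℝ) ^ (N + 1) / 2 < m p)).card : ℝ) +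
        ((T.filter (fun p => ¬ (2 : ℝ) ^ (N + 1) / 2 < m p)).card : ℝ) := by
      rw [← hsplit]; push_cast; ring
    rw [h6]
    push_cast
    linarith

private theorem bound (h1 : StDY5) (h2 : StSK) (k : ℤ) (hk : NC k) (ε : ℝ) (hε : 0 < ε)
    (hε1 : ε ≤ 1) : ∃ C : ℝ, 0 < C ∧
    ∀ Z : ℝ, 2 ≤ Z → ∀ T : Finset Pt, (∀ p ∈ T, Fm p = k ∧ |(p.2.2 : ℝ)| ≤ Z) →
      (T.card : ℝ) ≤ C * Z ^ (17 / 20 + ε : ℝ) := by
  obtain ⟨C1, hC1, H1⟩ := h1 k (ε / 8) hk (by positivity)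
  obtain ⟨C2, hC2, H2⟩ := h2 k hk
  refine ⟨8 * C2 / ε + 20 * C1 * (16 / ε + 2), by positivity, ?_⟩
  intro Z hZ T hT
  have hZ0 : (0 : ℝ) < Z := by linarith
  have hZ1 : (1 : ℝ) ≤ Z := by linarith
  set W : ℝ := Z ^ (23 / 20 : ℝ) with hW
  have hW0 : 0 < W := Real.rpow_pos_of_pos hZ0 _
  have hZW : Z ≤ W := by
    have := Real.rpow_le_rpow_of_exponent_le hZ1 (show (1 : ℝ) ≤ 23 / 20 by norm_num)
    rwa [Real.rpow_one] at this
  have hW1 : 1 ≤ W := hZ1.trans hZW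
  set Y : ℕ := ⌈Z⌉₊ with hY
  set M : ℕ := ⌈W⌉₊ with hM
  have hY1 : Z ≤ (Y : ℝ) := Nat.le_ceil Z
  have hY2 : (Y : ℝ) ≤ 2 * Z := by
    have := (Nat.ceil_lt_add_one hZ0.le).le
    linarith
  have hM1 : W ≤ (M : ℝ) := Nat.le_ceil W
  have hM2 : (M : ℝ) ≤ 2 * W := by
    have := (Nat.ceil_lt_add_one hW0.le).le
    linarith
  have hYM : Y ≤ M := Nat.ceil_mono hZW
  have hY3 : 2 ≤ Y := by
    have : (2 : ℝ) ≤ (Y : ℝ) := hZ.trans hY1
    exact_mod_cast this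
  have hM0 : (0 : ℝ) < M := lt_of_lt_of_le hW0 hM1
  set T1 := T.filter (fun p => (M : ℤ) ≤ max |p.1| |p.2.1|) with hT1
  set T2 := T.filter (fun p => ¬ (M : ℤ) ≤ max |p.1| |p.2.1|) with hT2
  have hsum : (T.card : ℝ) = (T1.card : ℝ) + (T2.card : ℝ) := by
    rw [hT1, hT2, ← Nat.cast_add, Finset.card_filter_add_card_filter_not]
  have b1 : (T1.card : ℝ) ≤ C2 * (Y : ℝ) ^ 2 / M * Real.log Y := by
    apply H2 Y M T1 hY3 hYM
    intro t ht
    rw [hT1, Finset.mem_filter] at ht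
    refine ⟨(hT t ht.1).1, ?_, ht.2⟩
    have h3 : ((|t.2.2| : ℤ) : ℝ) ≤ ((Y : ℤ) : ℝ) := by
      rw [Int.cast_abs, Int.cast_natCast]
      exact (hT t ht.1).2.trans hY1
    exact_mod_cast h3
  obtain ⟨n, hn1, hn2⟩ := exists_nat_pow_near (show (1 : ℝ) ≤ 2 * W by linarith) one_lt_two
  set G : ℝ := 5 * Z ^ (17 / 20 : ℝ) * (4 * Z ^ (ε / 2)) with hG
  have hN4 : (2 : ℝ) ^ (n + 1) ≤ 4 * W := by
    rw [pow_succ]; linarith
  have b2 : (T2.card : ℝ) ≤ (((n + 1 : ℕ) : ℝ) + 1) * (C1 * G) := by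
    apply dyad k hk C1 (ε / 8) Z G hZ1 hC1 H1 (n + 1)
    · intro i hi
      have hB1 : (1 : ℝ) ≤ 2 ^ i := one_le_pow₀ one_le_two
      have hB4 : (2 : ℝ) ^ i ≤ 4 * W := (pow_le_pow_right₀ one_le_two hi).trans hN4
      revert hB1 hB4
      generalize (2 : ℝ) ^ i = B
      intro hB1 hB4
      have hB0 : 0 < B := by linarith
      have c1 : min Z B * B ^ (-(3 / 20) : ℝ) ≤ Z ^ (17 / 20 : ℝ) := by
        rcases le_total B Z with h | h
        · rw [min_eq_right h]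
          have e1 : B * B ^ (-(3 / 20) : ℝ) = B ^ (17 / 20 : ℝ) := by
            nth_rewrite 1 [← Real.rpow_one B]
            rw [← Real.rpow_add hB0]
            norm_num
          rw [e1]
          exact Real.rpow_le_rpow hB0.le h (by norm_num)
        · rw [min_eq_left h]
          have e1 : Z * Z ^ (-(3 / 20) : ℝ) = Z ^ (17 / 20 : ℝ) := by
            nth_rewrite 1 [← Real.rpow_one Z]
            rw [← Real.rpow_add hZ0]
            norm_num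
          rw [← e1]
          apply mul_le_mul_of_nonneg_left _ hZ0.le
          exact Real.rpow_le_rpow_of_nonpos hZ0 h (by norm_num)
      have c2 : B ^ (1 / 10 : ℝ) ≤ 4 * Z ^ (17 / 20 : ℝ) := by
        calc B ^ (1 / 10 : ℝ) ≤ (4 * W) ^ (1 / 10 : ℝ) := Real.rpow_le_rpow hB0.le hB4 (by norm_num)
          _ = 4 ^ (1 / 10 : ℝ) * W ^ (1 / 10 : ℝ) := Real.mul_rpow (by norm_num) hW0.le
          _ ≤ 4 * Z ^ (17 / 20 : ℝ) := by
            apply mul_le_mul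
            · have := Real.rpow_le_rpow_of_exponent_le (show (1 : ℝ) ≤ 4 by norm_num)
                (show (1 / 10 : ℝ) ≤ 1 by norm_num)
              rwa [Real.rpow_one] at this
            · rw [hW, ← Real.rpow_mul hZ0.le]
              exact Real.rpow_le_rpow_of_exponent_le hZ1 (by norm_num)
            · positivity
            · norm_num
      have c3 : B ^ (ε / 8) ≤ 4 * Z ^ (ε / 2) := by
        calc B ^ (ε / 8) ≤ (4 * W) ^ (ε / 8) := Real.rpow_le_rpow hB0.le hB4 (by positivity)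
          _ = 4 ^ (ε / 8) * W ^ (ε / 8) := Real.mul_rpow (by norm_num) hW0.le
          _ ≤ 4 * Z ^ (ε / 2) := by
            apply mul_le_mul
            · have := Real.rpow_le_rpow_of_exponent_le (show (1 : ℝ) ≤ 4 by norm_num)
                (show ε / 8 ≤ 1 by linarith)
              rwa [Real.rpow_one] at this
            · rw [hW, ← Real.rpow_mul hZ0.le]
              exact Real.rpow_le_rpow_of_exponent_le hZ1 (by linarith)
            · positivity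
            · norm_num
      have c4 : (min Z B * B ^ (-(1 / 4) : ℝ) + 1) * B ^ (1 / 10 + ε / 8 : ℝ) =
          (min Z B * B ^ (-(3 / 20) : ℝ) + B ^ (1 / 10 : ℝ)) * B ^ (ε / 8) := by
        have f1 : B ^ (1 / 10 + ε / 8 : ℝ) = B ^ (1 / 10 : ℝ) * B ^ (ε / 8) := Real.rpow_add hB0 _ _
        have f2 : B ^ (-(1 / 4) : ℝ) * B ^ (1 / 10 : ℝ) = B ^ (-(3 / 20) : ℝ) := by
          rw [← Real.rpow_add hB0]
          norm_num
        rw [f1, ← f2]
        ring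
      rw [hG, c4]
      exact mul_le_mul (by linarith) c3 (by positivity) (by positivity)
    · intro p hp
      rw [hT2, Finset.mem_filter, not_le, max_lt_iff] at hp
      refine ⟨(hT p hp.1).1, ?_, (hT p hp.1).2⟩
      have h3 : ((|p.1| : ℤ) : ℝ) ≤ ((M : ℤ) : ℝ) := by exact_mod_cast hp.2.1.le
      have h4 : ((|p.2.1| : ℤ) : ℝ) ≤ ((M : ℤ) : ℝ) := by exact_mod_cast hp.2.2.le
      rw [Int.cast_abs, Int.cast_natCast] at h3 h4
      have h5 := (hT p hp.1).2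
      refine max_le ?_ (max_le ?_ ?_) <;> linarith
  -- estimates
  have hlog0 : 0 ≤ Real.log Y := Real.log_nonneg (hZ1.trans hY1)
  have h2ε : (2 : ℝ) ^ ε ≤ 2 := by
    have := Real.rpow_le_rpow_of_exponent_le (show (1 : ℝ) ≤ 2 by norm_num) hε1
    rwa [Real.rpow_one] at this
  have hlog : Real.log Y ≤ 2 * Z ^ ε / ε := by
    calc Real.log Y ≤ Real.log (2 * Z) := Real.log_le_log (lt_of_lt_of_le hZ0 hY1) hY2
      _ ≤ (2 * Z) ^ ε / ε := Real.log_le_rpow_div (by positivity) hε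
      _ ≤ 2 * Z ^ ε / ε := by
        apply div_le_div_of_nonneg_right _ hε.le
        rw [Real.mul_rpow (by norm_num) hZ0.le]
        exact mul_le_mul_of_nonneg_right h2ε (Real.rpow_nonneg hZ0.le _)
  have hYM' : (Y : ℝ) ^ 2 / M ≤ 4 * Z ^ (17 / 20 : ℝ) := by
    have h3 : (Y : ℝ) ^ 2 ≤ (2 * Z) ^ 2 := pow_le_pow_left₀ (by positivity) hY2 2
    have h4 : Z ^ 2 / W = Z ^ (17 / 20 : ℝ) := by
      rw [hW, ← Real.rpow_natCast Z 2, ← Real.rpow_sub hZ0]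
      norm_num
    calc (Y : ℝ) ^ 2 / M ≤ (2 * Z) ^ 2 / W := div_le_div₀ (by positivity) h3 hW0 hM1
      _ = 4 * (Z ^ 2 / W) := by ring
      _ = _ := by rw [h4]
  have hexp : Z ^ (17 / 20 + ε : ℝ) = Z ^ (17 / 20 : ℝ) * Z ^ ε := Real.rpow_add hZ0 _ _
  have e1 : C2 * (Y : ℝ) ^ 2 / M * Real.log Y ≤ 8 * C2 / ε * Z ^ (17 / 20 + ε : ℝ) := by
    calc C2 * (Y : ℝ) ^ 2 / M * Real.log Y = C2 * ((Y : ℝ) ^ 2 / M * Real.log Y) := by ring
      _ ≤ C2 * (4 * Z ^ (17 / 20 : ℝ) * (2 * Z ^ ε / ε)) := by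
          apply mul_le_mul_of_nonneg_left _ hC2.le
          exact mul_le_mul hYM' hlog hlog0 (by positivity)
      _ = _ := by rw [hexp]; ring
  have hnb : (n : ℝ) ≤ 16 / ε * Z ^ (ε / 2) := by
    have h3 : (n : ℝ) * Real.log 2 ≤ Real.log (2 * W) := by
      rw [← Real.log_pow]
      exact Real.log_le_log (by positivity) hn1
    have h4 : Real.log (2 * W) ≤ (2 * W) ^ (ε / 4) / (ε / 4) :=
      Real.log_le_rpow_div (by positivity) (by positivity)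
    have h5 : (2 * W) ^ (ε / 4) ≤ 2 * Z ^ (ε / 2) := by
      rw [Real.mul_rpow (by norm_num) hW0.le]
      apply mul_le_mul
      · have := Real.rpow_le_rpow_of_exponent_le (show (1 : ℝ) ≤ 2 by norm_num)
          (show ε / 4 ≤ 1 by linarith)
        rwa [Real.rpow_one] at this
      · rw [hW, ← Real.rpow_mul hZ0.le]
        exact Real.rpow_le_rpow_of_exponent_le hZ1 (by linarith)
      · positivity
      · norm_num
    have h6 : (2 * W) ^ (ε / 4) / (ε / 4) ≤ 2 * Z ^ (ε / 2) / (ε / 4) :=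
      div_le_div_of_nonneg_right h5 (by positivity)
    have h7 : (1 / 2 : ℝ) ≤ Real.log 2 := by
      have := Real.log_two_gt_d9
      linarith
    have h8 : (n : ℝ) * (1 / 2) ≤ (n : ℝ) * Real.log 2 :=
      mul_le_mul_of_nonneg_left h7 (Nat.cast_nonneg n)
    have h9 : 2 * Z ^ (ε / 2) / (ε / 4) = 8 / ε * Z ^ (ε / 2) := by
      field_simp
      ring
    have h10 : 16 / ε * Z ^ (ε / 2) = 2 * (8 / ε * Z ^ (ε / 2)) := by ring
    rw [h10]
    linarith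
  have e2 : (((n + 1 : ℕ) : ℝ) + 1) * (C1 * G) ≤ 20 * C1 * (16 / ε + 2) * Z ^ (17 / 20 + ε : ℝ) := by
    have h3 : (1 : ℝ) ≤ Z ^ (ε / 2) := Real.one_le_rpow hZ1 (by positivity)
    have h4 : ((n + 1 : ℕ) : ℝ) + 1 ≤ (16 / ε + 2) * Z ^ (ε / 2) := by
      push_cast
      linarith
    have h5 : 0 ≤ C1 * G := by positivity
    have h6 : Z ^ ε = Z ^ (ε / 2) * Z ^ (ε / 2) := by
      rw [← Real.rpow_add hZ0]
      congr 1
      ring
    calc (((n + 1 : ℕ) : ℝ) + 1) * (C1 * G) ≤ ((16 / ε + 2) * Z ^ (ε / 2)) * (C1 * G) :=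
          mul_le_mul_of_nonneg_right h4 h5
      _ = _ := by rw [hexp, h6, hG]; ring
  rw [hsum]
  calc (T1.card : ℝ) + T2.card ≤ 8 * C2 / ε * Z ^ (17 / 20 + ε : ℝ) +
        20 * C1 * (16 / ε + 2) * Z ^ (17 / 20 + ε : ℝ) :=
        add_le_add (b1.trans e1) (b2.trans e2)
    _ = _ := by ring

/-- MODULE FI5. -/
theorem hFI5 (h1 : StDY5) (h2 : StSK) : StFI5 := by
  intro k hk ε' hε'
  obtain ⟨ε, hε, hε1, hεε⟩ : ∃ ε : ℝ, 0 < ε ∧ ε ≤ 1 ∧ ε ≤ ε' :=
    ⟨min ε' 1, lt_min hε' one_pos, min_le_right _ _, min_le_left _ _⟩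
  obtain ⟨C, hC, H⟩ := bound h1 h2 k hk ε hε hε1
  refine ⟨4 * C, fun Z hZ => ?_⟩
  set S : Set Pt := {p : ℤ × ℤ × ℤ | p.1 ^ 3 + p.2.1 ^ 3 + p.2.2 ^ 3 = k ∧ |(p.2.2 : ℝ)| ≤ Z} with hS
  have hZ0 : (0 : ℝ) < Z := by linarith
  have key : ∀ T : Finset Pt, (∀ p ∈ T, p ∈ S) → (T.card : ℝ) ≤ 4 * C * Z ^ (17 / 20 + ε' : ℝ) := by
    intro T hT
    have h3 := H (2 * Z) (by linarith) T (fun p hp => ⟨(hT p hp).1, (hT p hp).2.trans (by linarith)⟩)
    have h4 : (2 * Z) ^ (17 / 20 + ε : ℝ) ≤ 4 * Z ^ (17 / 20 + ε' : ℝ) := by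
      rw [Real.mul_rpow (by norm_num) hZ0.le]
      apply mul_le_mul
      · have := Real.rpow_le_rpow_of_exponent_le (show (1 : ℝ) ≤ 2 by norm_num)
          (show (17 / 20 + ε : ℝ) ≤ 2 by linarith)
        rw [Real.rpow_two] at this
        linarith
      · exact Real.rpow_le_rpow_of_exponent_le hZ (by linarith)
      · positivity
      · norm_num
    calc (T.card : ℝ) ≤ C * (2 * Z) ^ (17 / 20 + ε : ℝ) := h3
      _ ≤ C * (4 * Z ^ (17 / 20 + ε' : ℝ)) := mul_le_mul_of_nonneg_left h4 hC.le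
      _ = _ := by ring
  have hfin : S.Finite := by
    by_contra hinf
    obtain ⟨T, hT1, hT2⟩ := (show S.Infinite from hinf).exists_subset_card_eq
      (⌊4 * C * Z ^ (17 / 20 + ε' : ℝ)⌋₊ + 1)
    have h3 := key T (fun p hp => hT1 hp)
    rw [hT2] at h3
    have h4 := Nat.lt_floor_add_one (4 * C * Z ^ (17 / 20 + ε' : ℝ))
    push_cast at h3
    linarith
  refine ⟨hfin, ?_⟩
  rw [Set.ncard_eq_toFinset_card S hfin]
  exact key _ (fun p hp => (Set.Finite.mem_toFinset hfin).1 hp)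

end Pool.Agent.Helper8.PV
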